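import Mathlib

set_option autoImplicit false

/-!
# MP_63c74b: quadratic modules with one generator, definitions and degrees of sums of squares
-/

open MvPolynomial

namespace Pool.Agent.Helper68.QM

/-- the polynomial ring in two variables over the reals -/
abbrev A : Type := MvPolynomial (Fin 2) ℝ

/-- `f` lies in the quadratic module `M_g = Σ + Σ g` -/
def InM (g f : A) : Prop := ∃ s t : A, IsSumSq s ∧ IsSumSq t ∧ f = s + t * g

/-- the quadratic module `M_g` is stable -/
def Stable (g : A) : Prop :=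
  ∃ l : ℕ → ℕ, ∀ (d : ℕ) (f : A), InM g f → f.totalDegree ≤ d →
    ∃ s t : A, IsSumSq s ∧ IsSumSq t ∧ f = s + t * g ∧ s.totalDegree ≤ l d ∧
      (t * g).totalDegree ≤ l d

section InM

variable {g : A}

theorem isSumSq_sq (a : A) : IsSumSq (a ^ 2) := by
  rw [pow_two]
  exact IsSumSq.mul_self a

theorem isSumSq_C {r : ℝ} (hr : 0 ≤ r) : IsSumSq (C r : A) := by
  have h : (C r : A) = C (Real.sqrt r) * C (Real.sqrt r) := by
    rw [← C_mul, Real.mul_self_sqrt hr]
  rw [h]
  exact IsSumSq.mul_self _

theorem InM.of_sq {s : A} (hs : IsSumSq s) : InM g s := ⟨s, 0, hs, IsSumSq.zero, by ring⟩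

theorem InM.sq (a : A) : InM g (a ^ 2) := InM.of_sq (isSumSq_sq a)

theorem InM.const {r : ℝ} (hr : 0 ≤ r) : InM g (C r) := InM.of_sq (isSumSq_C hr)

theorem InM.gen : InM g g := ⟨0, 1, IsSumSq.zero, IsSumSq.one, by ring⟩

theorem InM.add {a b : A} (ha : InM g a) (hb : InM g b) : InM g (a + b) := by
  obtain ⟨s, t, hs, ht, rfl⟩ := ha
  obtain ⟨s', t', hs', ht', rfl⟩ := hb
  exact ⟨s + s', t + t', hs.add hs', ht.add ht', by ring⟩

theorem InM.mul {a b : A} (ha : InM g a) (hb : InM g b) : InM g (a * b) := by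
  obtain ⟨s, t, hs, ht, rfl⟩ := ha
  obtain ⟨s', t', hs', ht', rfl⟩ := hb
  exact ⟨s * s' + t * t' * g ^ 2, s * t' + t * s', ((hs.mul hs').add
    ((ht.mul ht').mul (isSumSq_sq g))), (hs.mul ht').add (ht.mul hs'), by ring⟩

theorem IsSumSq.eval_nonneg {s : A} (hs : IsSumSq s) (z : Fin 2 → ℝ) : 0 ≤ eval z s := by
  induction hs with
  | zero => simp
  | sq_add a _ ih =>
    rw [map_add, map_mul]
    exact add_nonneg (mul_self_nonneg _) ih

theorem IsSumSq.exists_list {s : A} (hs : IsSumSq s) :
    ∃ (n : ℕ) (a : Fin n → A), s = ∑ i, a i ^ 2 := by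
  induction hs with
  | zero => exact ⟨0, Fin.elim0, by simp⟩
  | sq_add b _ ih =>
    obtain ⟨n, a, ha⟩ := ih
    refine ⟨n + 1, Fin.cons b a, ?_⟩
    rw [Fin.sum_univ_succ, Fin.cons_zero, ha]
    simp [pow_two]

theorem IsSumSq.aeval {s : A} (hs : IsSumSq s) (f : Fin 2 → A) :
    IsSumSq (MvPolynomial.aeval f s) := by
  induction hs with
  | zero => rw [map_zero]; exact IsSumSq.zero
  | sq_add b _ ih =>
    rw [map_add, map_mul]
    exact (IsSumSq.mul_self _).add ih

end InM

section Degree

theorem sq_top (a : A) (k : ℕ) (ha : a.totalDegree ≤ k) :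
    homogeneousComponent (2 * k) (a ^ 2) = homogeneousComponent k a ^ 2 := by
  ext m
  rw [coeff_homogeneousComponent, pow_two, pow_two, coeff_mul, coeff_mul]
  have hco : ∀ x : Fin 2 →₀ ℕ, k < x.degree → coeff x a = 0 := by
    intro x hx
    by_contra h
    have h1 := le_totalDegree (p := a) (s := x) (by rwa [mem_support_iff])
    rw [Finsupp.degree_eq_sum] at hx
    have h2 : (x.sum fun _ e => e) = ∑ i, x i := Finsupp.sum_fintype _ _ (fun _ => rfl)
    omega
  split_ifs with hm
  · refine Finset.sum_congr rfl fun p hp => ?_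
    rw [Finset.HasAntidiagonal.mem_antidiagonal] at hp
    have h3 : p.1.degree + p.2.degree = 2 * k := by rw [← map_add, hp, hm]
    rw [coeff_homogeneousComponent, coeff_homogeneousComponent]
    by_cases h4 : p.1.degree = k
    · rw [if_pos h4, if_pos (by omega)]
    · rw [if_neg h4, zero_mul]
      rcases Nat.lt_or_gt_of_ne h4 with h5 | h5
      · rw [hco p.2 (by omega), mul_zero]
      · rw [hco p.1 (by omega), zero_mul]
  · symm
    refine Finset.sum_eq_zero fun p hp => ?_
    rw [Finset.HasAntidiagonal.mem_antidiagonal] at hp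
    have h3 : p.1.degree + p.2.degree = m.degree := by rw [← map_add, hp]
    rw [coeff_homogeneousComponent, coeff_homogeneousComponent]
    split_ifs with h4 h5
    · omega
    · rw [mul_zero]
    · rw [zero_mul]
    · rw [zero_mul]

/-- squares do not cancel: degree of the summands of a sum of squares -/
theorem degree_sum_sq {n : ℕ} (a : Fin n → A) (D : ℕ)
    (h : (∑ i, a i ^ 2).totalDegree ≤ 2 * D) (i : Fin n) : (a i).totalDegree ≤ D := by
  by_contra hi
  push Not at hi
  -- the largest degree
  obtain ⟨j, -, hj⟩ := Finset.exists_max_image Finset.univ (fun i => (a i).totalDegree) ⟨i, Finset.mem_univ i⟩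
  set K := (a j).totalDegree with hK
  have hKD : D < K := lt_of_lt_of_le hi (hj i (Finset.mem_univ i))
  have h1 : homogeneousComponent (2 * K) (∑ i, a i ^ 2) = 0 :=
    homogeneousComponent_eq_zero _ _ (by omega)
  rw [map_sum, Finset.sum_congr rfl (fun i _ => sq_top (a i) K (hj i (Finset.mem_univ i)))] at h1
  have h2 : homogeneousComponent K (a j) = 0 := by
    apply MvPolynomial.funext
    intro z
    have h3 := congrArg (eval z) h1
    rw [map_sum, map_zero] at h3
    have h4 := (Finset.sum_eq_zero_iff_of_nonneg (fun i _ => by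
      rw [map_pow]; exact sq_nonneg _)).1 h3 j (Finset.mem_univ j)
    rw [map_pow] at h4
    rw [map_zero]
    exact pow_eq_zero_iff (two_ne_zero) |>.1 h4
  have hne : (a j) ≠ 0 := by
    rintro h0
    rw [h0, totalDegree_zero] at hK
    omega
  obtain ⟨m, hm, hmd⟩ := Finset.exists_mem_eq_sup (a j).support (by
    rwa [Finset.nonempty_iff_ne_empty, Ne, support_eq_empty]) (fun s => s.sum fun _ e => e)
  have h5 : m.degree = K := by
    have h6 : (m.sum fun _ e => e) = ∑ i, m i := Finsupp.sum_fintype _ _ (fun _ => rfl)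
    rw [hK, totalDegree, hmd, Finsupp.degree_eq_sum, h6]
  have h6 := coeff_homogeneousComponent (φ := a j) (n := K) (d := m)
  rw [h2, coeff_zero, if_pos h5] at h6
  rw [mem_support_iff] at hm
  exact hm h6.symm

end Degree

end Pool.Agent.Helper68.QM
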