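import Pool.Agent.Helper68.QM.Basic

set_option autoImplicit false

/-!
# MP_63c74b: compactness of sums of squares of bounded degree
-/

open MvPolynomial Filter Topology

namespace Pool.Agent.Helper68.QM

/-- index set of the monomials `x^i y^j`, `i, j ≤ k` -/
abbrev J (k : ℕ) : Type := Fin (k + 1) × Fin (k + 1)

/-- the exponent -/
noncomputable def ex (i j : ℕ) : Fin 2 →₀ ℕ := Finsupp.single 0 i + Finsupp.single 1 j

theorem ex_zero (i j : ℕ) : ex i j 0 = i := by simp [ex]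

theorem ex_one (i j : ℕ) : ex i j 1 = j := by simp [ex]

/-- polynomial with given coefficients -/
noncomputable def Phi (k : ℕ) : (J k → ℝ) →ₗ[ℝ] A where
  toFun c := ∑ p : J k, c p • (monomial (ex p.1 p.2) (1 : ℝ) : A)
  map_add' c d := by
    rw [← Finset.sum_add_distrib]
    exact Finset.sum_congr rfl fun p _ => by rw [Pi.add_apply, add_smul]
  map_smul' r c := by
    rw [RingHom.id_apply, Finset.smul_sum]
    exact Finset.sum_congr rfl fun p _ => by rw [Pi.smul_apply, smul_eq_mul, mul_smul]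

theorem Phi_apply (k : ℕ) (c : J k → ℝ) :
    Phi k c = ∑ p : J k, c p • (monomial (ex p.1 p.2) (1 : ℝ) : A) := rfl

theorem coeff_Phi (k : ℕ) (c : J k → ℝ) (q : J k) : coeff (ex q.1 q.2) (Phi k c) = c q := by
  rw [Phi_apply, coeff_sum, Finset.sum_eq_single q]
  · simp
  · intro p _ hpq
    rw [coeff_smul, coeff_monomial, if_neg, smul_zero]
    intro h
    apply hpq
    have h0 := DFunLike.congr_fun h 0
    have h1 := DFunLike.congr_fun h 1
    rw [ex_zero, ex_zero] at h0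
    rw [ex_one, ex_one] at h1
    exact Prod.ext (Fin.ext h0) (Fin.ext h1)
  · intro h
    exact absurd (Finset.mem_univ q) h

theorem coeff_eq_zero_of_deg {a : A} {k : ℕ} (ha : a.totalDegree ≤ k) (x : Fin 2 →₀ ℕ)
    (hx : k < x 0 + x 1) : coeff x a = 0 := by
  by_contra h
  have h1 := le_totalDegree (p := a) (s := x) (by rwa [mem_support_iff])
  have h2 : (x.sum fun _ e => e) = ∑ i, x i := Finsupp.sum_fintype _ _ (fun _ => rfl)
  rw [Fin.sum_univ_two] at h2
  omega

theorem exists_Phi {a : A} {k : ℕ} (ha : a.totalDegree ≤ k) : ∃ c, Phi k c = a := by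
  refine ⟨fun p => coeff (ex p.1 p.2) a, ?_⟩
  ext m
  by_cases hm : m 0 ≤ k ∧ m 1 ≤ k
  · have h1 : m = ex ((⟨m 0, Nat.lt_succ_of_le hm.1⟩ : Fin (k + 1)) : ℕ)
        ((⟨m 1, Nat.lt_succ_of_le hm.2⟩ : Fin (k + 1)) : ℕ) := by
      ext i
      fin_cases i
      · simp [ex_zero]
      · simp [ex_one]
    have h2 := coeff_Phi k (fun p => coeff (ex p.1 p.2) a)
      (⟨m 0, Nat.lt_succ_of_le hm.1⟩, ⟨m 1, Nat.lt_succ_of_le hm.2⟩)
    simp only at h2
    rw [← h1] at h2
    exact h2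
  · rw [coeff_eq_zero_of_deg ha m (by omega), Phi_apply, coeff_sum]
    refine Finset.sum_eq_zero fun p _ => ?_
    rw [coeff_smul, coeff_monomial, if_neg, smul_zero]
    rintro rfl
    apply hm
    rw [ex_zero, ex_one]
    exact ⟨Nat.lt_succ_iff.1 p.1.2, Nat.lt_succ_iff.1 p.2.2⟩

theorem degreeOf_Phi (k : ℕ) (c : J k → ℝ) (i : Fin 2) : degreeOf i (Phi k c) ≤ k := by
  rw [degreeOf_le_iff]
  intro m hm
  rw [mem_support_iff, Phi_apply, coeff_sum] at hm
  obtain ⟨p, -, hp⟩ := Finset.exists_ne_zero_of_sum_ne_zero hm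
  rw [coeff_smul, coeff_monomial] at hp
  split_ifs at hp with h
  · rw [← h]
    fin_cases i
    · simpa [ex_zero] using Nat.lt_succ_iff.1 p.1.2
    · simpa [ex_one] using Nat.lt_succ_iff.1 p.2.2
  · simp at hp

theorem eval_Phi (k : ℕ) (c : J k → ℝ) (z : Fin 2 → ℝ) :
    eval z (Phi k c) = ∑ p : J k, c p * (z 0 ^ (p.1 : ℕ) * z 1 ^ (p.2 : ℕ)) := by
  rw [Phi_apply, map_sum]
  refine Finset.sum_congr rfl fun p _ => ?_
  rw [smul_eval, eval_monomial, one_mul, Finsupp.prod_fintype _ _ (fun _ => pow_zero _),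
    Fin.prod_univ_two, ex_zero, ex_one]

theorem continuous_eval_Phi (k : ℕ) (z : Fin 2 → ℝ) :
    Continuous fun c : J k → ℝ => eval z (Phi k c) := by
  simp only [eval_Phi]
  fun_prop

/-- Gram matrix form of a sum of squares -/
theorem gram {k : ℕ} {ι : Type} [Fintype ι] (M : Matrix ι (J k) ℝ) :
    ∑ i, Phi k (M i) ^ 2 = ∑ p : J k, ∑ q : J k, (M.transpose * M) p q •
      ((monomial (ex p.1 p.2) (1 : ℝ) : A) * monomial (ex q.1 q.2) (1 : ℝ)) := by
  have h1 : ∀ i, Phi k (M i) ^ 2 = ∑ p : J k, ∑ q : J k, (M i p * M i q) •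
      ((monomial (ex p.1 p.2) (1 : ℝ) : A) * monomial (ex q.1 q.2) (1 : ℝ)) := by
    intro i
    rw [pow_two, Phi_apply, Finset.sum_mul_sum]
    refine Finset.sum_congr rfl fun p _ => Finset.sum_congr rfl fun q _ => ?_
    rw [smul_mul_smul_comm]
  simp only [h1]
  rw [Finset.sum_comm]
  refine Finset.sum_congr rfl fun p _ => ?_
  rw [Finset.sum_comm]
  refine Finset.sum_congr rfl fun q _ => ?_
  rw [← Finset.sum_smul, Matrix.mul_apply]
  rfl

open scoped MatrixOrder in
/-- a sum of squares of polynomials of degree `≤ k` is a sum of a fixed number of squares -/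
theorem few_squares {n k : ℕ} (a : Fin n → A) (ha : ∀ i, (a i).totalDegree ≤ k) :
    ∃ B : J k → J k → ℝ, ∑ i, a i ^ 2 = ∑ j, Phi k (B j) ^ 2 := by
  choose c hc using fun i => exists_Phi (ha i)
  let M : Matrix (Fin n) (J k) ℝ := c
  have hG : (M.conjTranspose * M).PosSemidef := Matrix.posSemidef_conjTranspose_mul_self M
  obtain ⟨B, hB⟩ := CStarAlgebra.nonneg_iff_eq_star_mul_self.mp hG.nonneg
  refine ⟨B, ?_⟩
  have h1 : ∑ i, a i ^ 2 = ∑ i, Phi k (M i) ^ 2 := Finset.sum_congr rfl fun i _ => by rw [← hc i]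
  rw [h1, gram M, gram (k := k) (ι := J k) B]
  have h2 : M.transpose * M = Matrix.transpose B * B := by
    have h3 : M.conjTranspose = M.transpose := by
      ext i j; simp [Matrix.conjTranspose_apply]
    have h4 : star B = Matrix.transpose B := by
      ext i j; simp [Matrix.star_apply]
    rw [h3, h4] at hB
    exact hB
  rw [h2]

theorem sumsq_form {a : A} {k : ℕ} (ha : IsSumSq a) (hd : a.totalDegree ≤ 2 * k) :
    ∃ B : J k → J k → ℝ, a = ∑ j, Phi k (B j) ^ 2 := by
  obtain ⟨n, b, hb⟩ := IsSumSq.exists_list ha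
  rw [hb] at hd ⊢
  exact few_squares b (degree_sum_sq b k hd)

/-- the evaluation at the points of a grid -/
noncomputable def Ev (k : ℕ) (S : Fin 2 → Finset ℝ) :
    (J k → ℝ) →ₗ[ℝ] ({z // z ∈ Fintype.piFinset S} → ℝ) where
  toFun c := fun z => eval z.1 (Phi k c)
  map_add' c d := by
    funext z
    rw [map_add, map_add, Pi.add_apply]
  map_smul' r c := by
    funext z
    rw [map_smul, smul_eval]
    rfl

theorem Ev_ker (k : ℕ) (S : Fin 2 → Finset ℝ) (hS : ∀ i, k < (S i).card) :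
    LinearMap.ker (Ev k S) = ⊥ := by
  rw [LinearMap.ker_eq_bot']
  intro c hc
  have h1 : Phi k c = 0 := by
    refine eq_zero_of_eval_zero_at_prod_finset _ S (fun i => ?_) (fun z hz => ?_)
    · exact lt_of_le_of_lt (degreeOf_Phi k c i) (hS i)
    · exact congrFun hc ⟨z, Fintype.mem_piFinset.2 hz⟩
  funext q
  rw [← coeff_Phi k c q, h1]
  simp

/-- bounded values on the grid give bounded coefficients -/
theorem exists_bound (k : ℕ) (S : Fin 2 → Finset ℝ) (hS : ∀ i, k < (S i).card) (R : ℝ) :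
    ∃ K : ℝ, ∀ B : J k → J k → ℝ,
      (∀ z, (∀ i, z i ∈ S i) → eval z (∑ j, Phi k (B j) ^ 2) ≤ R) → ‖B‖ ≤ K := by
  obtain ⟨K, -, hK⟩ := LinearMap.exists_antilipschitzWith (Ev k S) (Ev_ker k S hS)
  refine ⟨K * Real.sqrt R, fun B hB => ?_⟩
  have hnn : (0 : ℝ) ≤ K * Real.sqrt R := by positivity
  rw [pi_norm_le_iff_of_nonneg hnn]
  intro j
  have h1 := hK.le_mul_norm (map_zero _) (B j)
  refine h1.trans (mul_le_mul_of_nonneg_left ?_ K.2)
  rw [pi_norm_le_iff_of_nonneg (Real.sqrt_nonneg R)]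
  intro z
  have h2 := hB z.1 (Fintype.mem_piFinset.1 z.2)
  rw [map_sum] at h2
  have h3 : eval z.1 (Phi k (B j)) ^ 2 ≤ R := by
    refine le_trans ?_ h2
    have := Finset.single_le_sum (f := fun j => eval z.1 (Phi k (B j) ^ 2))
      (fun j _ => by rw [map_pow]; exact sq_nonneg _) (Finset.mem_univ j)
    simpa using this
  exact Real.abs_le_sqrt h3

/-- **Limit lemma.** -/
theorem limit (k : ℕ) (a b : ℕ → A) (ha : ∀ n, IsSumSq (a n)) (hb : ∀ n, IsSumSq (b n))
    (had : ∀ n, (a n).totalDegree ≤ 2 * k) (hbd : ∀ n, (b n).totalDegree ≤ 2 * k)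
    (G F : ℕ → (Fin 2 → ℝ) → ℝ) (G0 F0 : (Fin 2 → ℝ) → ℝ)
    (hG : ∀ z, Tendsto (fun n => G n z) atTop (𝓝 (G0 z)))
    (hF : ∀ z, Tendsto (fun n => F n z) atTop (𝓝 (F0 z)))
    (hFG : ∀ n z, F n z = eval z (a n) + eval z (b n) * G n z)
    (S : Fin 2 → Finset ℝ) (hS : ∀ i, k < (S i).card) (hpos : ∀ z, (∀ i, z i ∈ S i) → 0 < G0 z) :
    ∃ s t : A, IsSumSq s ∧ IsSumSq t ∧ ∀ z, F0 z = eval z s + eval z t * G0 z := by
  classical
  choose B hB using fun n => sumsq_form (ha n) (had n)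
  choose D hD using fun n => sumsq_form (hb n) (hbd n)
  -- uniform bounds on the grid
  have hfin : ∀ᶠ n in atTop, ∀ z ∈ Fintype.piFinset S, G0 z / 2 < G n z ∧ F n z < F0 z + 1 := by
    rw [Filter.eventually_all_finset]
    intro z hz
    have hz' := hpos z (Fintype.mem_piFinset.1 hz)
    exact ((hG z).eventually (lt_mem_nhds (by linarith))).and
      ((hF z).eventually (gt_mem_nhds (by linarith)))
  obtain ⟨N, hN⟩ := eventually_atTop.1 hfin
  obtain ⟨R, hR⟩ : ∃ R : ℝ, ∀ z ∈ Fintype.piFinset S, F0 z + 1 ≤ R ∧ (F0 z + 1) / (G0 z / 2) ≤ R := by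
    refine ⟨∑ z ∈ Fintype.piFinset S, (|F0 z + 1| + |(F0 z + 1) / (G0 z / 2)|), fun z hz => ?_⟩
    have h1 := Finset.single_le_sum (f := fun z => |F0 z + 1| + |(F0 z + 1) / (G0 z / 2)|)
      (fun z _ => by positivity) hz
    have h2 := le_abs_self (F0 z + 1)
    have h3 := le_abs_self ((F0 z + 1) / (G0 z / 2))
    have h4 := abs_nonneg (F0 z + 1)
    have h5 := abs_nonneg ((F0 z + 1) / (G0 z / 2))
    constructor <;> linarith
  obtain ⟨K, hK⟩ := exists_bound k S hS R
  have hval : ∀ n, ∀ z ∈ Fintype.piFinset S,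
      eval z (a (n + N)) ≤ R ∧ eval z (b (n + N)) ≤ R := by
    intro n z hz
    have hz' := hpos z (Fintype.mem_piFinset.1 hz)
    obtain ⟨h1, h2⟩ := hN (n + N) (by omega) z hz
    obtain ⟨h3, h4⟩ := hR z hz
    have h5 := hFG (n + N) z
    have h6 := IsSumSq.eval_nonneg (ha (n + N)) z
    have h7 := IsSumSq.eval_nonneg (hb (n + N)) z
    have h8 : 0 ≤ eval z (b (n + N)) * G (n + N) z := mul_nonneg h7 (by linarith)
    refine ⟨by linarith, ?_⟩
    have h9 : eval z (b (n + N)) * (G0 z / 2) ≤ F0 z + 1 := by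
      have := mul_le_mul_of_nonneg_left h1.le h7
      linarith
    have h10 : eval z (b (n + N)) ≤ (F0 z + 1) / (G0 z / 2) := by
      rw [le_div_iff₀ (by linarith)]
      exact h9
    linarith
  have hx : ∀ n, (B (n + N), D (n + N)) ∈ Metric.closedBall (0 : (J k → J k → ℝ) × (J k → J k → ℝ)) K := by
    intro n
    rw [mem_closedBall_zero_iff, Prod.norm_def]
    refine max_le (hK _ fun z hz => ?_) (hK _ fun z hz => ?_)
    · rw [← hB]
      exact (hval n z (Fintype.mem_piFinset.2 hz)).1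
    · rw [← hD]
      exact (hval n z (Fintype.mem_piFinset.2 hz)).2
  obtain ⟨x, -, φ, hφ, hlim⟩ := tendsto_subseq_of_bounded Metric.isBounded_closedBall hx
  refine ⟨∑ j, Phi k (x.1 j) ^ 2, ∑ j, Phi k (x.2 j) ^ 2, IsSumSq.sum_sq _ _, IsSumSq.sum_sq _ _,
    fun z => ?_⟩
  have hcont : Continuous fun c : J k → J k → ℝ => eval z (∑ j, Phi k (c j) ^ 2) := by
    simp only [map_sum, map_pow]
    refine continuous_finsetSum _ fun j _ => ?_
    exact ((continuous_eval_Phi k z).comp (continuous_apply j)).pow 2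
  have h1 : Tendsto (fun n => eval z (a (φ n + N))) atTop (𝓝 (eval z (∑ j, Phi k (x.1 j) ^ 2))) := by
    have := (hcont.tendsto x.1).comp ((continuous_fst.tendsto x).comp hlim)
    refine this.congr fun n => ?_
    rw [hB (φ n + N)]
    rfl
  have h2 : Tendsto (fun n => eval z (b (φ n + N))) atTop (𝓝 (eval z (∑ j, Phi k (x.2 j) ^ 2))) := by
    have := (hcont.tendsto x.2).comp ((continuous_snd.tendsto x).comp hlim)
    refine this.congr fun n => ?_
    rw [hD (φ n + N)]
    rfl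
  have hφN : Tendsto (fun n => φ n + N) atTop atTop :=
    tendsto_atTop_mono (fun n => Nat.le_add_right _ _) hφ.tendsto_atTop
  have h3 := (hG z).comp hφN
  have h4 := (hF z).comp hφN
  have h5 := h1.add (h2.mul h3)
  refine tendsto_nhds_unique h4 (h5.congr fun n => ?_)
  exact (hFG _ z).symm

end Pool.Agent.Helper68.QM
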