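import Pool.Agent.Helper68.QM.Compact

set_option autoImplicit false

/-!
# MP_63c74b: stable quadratic modules are closed; bounded polynomials
-/

open MvPolynomial Filter Topology

namespace Pool.Agent.Helper68.QM

variable {g h : A}

theorem exists_grid (z0 : Fin 2 → ℝ) (hz : 0 < eval z0 g) (k : ℕ) :
    ∃ S : Fin 2 → Finset ℝ, (∀ i, k < (S i).card) ∧ ∀ z, (∀ i, z i ∈ S i) → 0 < eval z g := by
  have hcont : Continuous fun z : Fin 2 → ℝ => eval z g := MvPolynomial.continuous_eval g
  have hopen : IsOpen {z : Fin 2 → ℝ | 0 < eval z g} := isOpen_lt continuous_const hcont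
  obtain ⟨r, hr, hball⟩ := Metric.isOpen_iff.1 hopen z0 hz
  have h1 : ∀ i, ∃ t : Finset ℝ, ↑t ⊆ Set.Ioo (z0 i - r) (z0 i + r) ∧ t.card = k + 1 := fun i =>
    (Set.Ioo_infinite (show z0 i - r < z0 i + r by linarith)).exists_subset_card_eq (k + 1)
  choose S hS hc using h1
  refine ⟨S, fun i => by rw [hc]; omega, fun z hz' => hball ?_⟩
  rw [Metric.mem_ball, dist_pi_lt_iff hr]
  intro i
  have h2 := hS i (hz' i)
  rw [Real.dist_eq, abs_lt]
  constructor <;> linarith [h2.1, h2.2]

theorem eq_zero_of_vanish (z0 : Fin 2 → ℝ) (hz : 0 < eval z0 g) (f : A)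
    (hf : ∀ z, 0 < eval z g → eval z f = 0) : f = 0 := by
  obtain ⟨S, hS, hS'⟩ := exists_grid z0 hz f.totalDegree
  exact eq_zero_of_eval_zero_at_prod_finset f S
    (fun i => lt_of_le_of_lt (degreeOf_le_totalDegree f i) (hS i)) (fun z hz => hf z (hS' z hz))

theorem deg_right {t g : A} (hg : g ≠ 0) : t.totalDegree ≤ (t * g).totalDegree := by
  by_cases ht : t = 0
  · rw [ht]; simp
  · rw [totalDegree_mul_of_isDomain ht hg]
    omega

theorem Stable.closed (hst : Stable g) (z0 : Fin 2 → ℝ) (hz : 0 < eval z0 g) (D : ℕ)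
    (f : ℕ → A) (f0 : A) (hf : ∀ n, InM g (f n)) (hd : ∀ n, (f n).totalDegree ≤ D)
    (hlim : ∀ z, Tendsto (fun n => eval z (f n)) atTop (𝓝 (eval z f0))) : InM g f0 := by
  obtain ⟨l, hl⟩ := hst
  choose a b ha hb hab had hbd using fun n => hl D (f n) (hf n) (hd n)
  have hg0 : g ≠ 0 := by rintro rfl; simp at hz
  obtain ⟨S, hS, hS'⟩ := exists_grid z0 hz (l D)
  obtain ⟨s, t, hs, ht, hst⟩ := limit (l D) a b ha hb (fun n => (had n).trans (by omega))
    (fun n => ((deg_right hg0).trans (hbd n)).trans (by omega))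
    (fun _ z => eval z g) (fun n z => eval z (f n)) (fun z => eval z g) (fun z => eval z f0)
    (fun z => tendsto_const_nhds) hlim (fun n z => by
      have h1 := congrArg (eval z) (hab n)
      rw [map_add, map_mul] at h1
      exact h1) S hS hS'
  refine ⟨s, t, hs, ht, ?_⟩
  apply MvPolynomial.funext
  intro z
  rw [hst z, map_add, map_mul]

/-- from a certificate of boundedness to `L - h ^ 2 ∈ M`, up to a small multiple of `p` -/
theorem claim1 {p q : A} (_hp : InM g p) (hq : InM g q) (L : ℝ) (hL : 0 < L)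
    (hc : p * (C L - h ^ 2) = 1 + q) (N : ℕ) :
    InM g (C (L ^ (N + 1)) * p - (h ^ 2) ^ N - p * (h ^ 2) ^ (N + 1)) := by
  induction N with
  | zero =>
    have h1 : C (L ^ (0 + 1)) * p - (h ^ 2) ^ 0 - p * (h ^ 2) ^ (0 + 1) = q := by
      have h2 : q = p * (C L - h ^ 2) - 1 := by rw [hc]; ring
      rw [h2, zero_add, pow_one]
      ring
    rw [h1]
    exact hq
  | succ N ih =>
    have h1 : C (L ^ (N + 1 + 1)) * p - (h ^ 2) ^ (N + 1) - p * (h ^ 2) ^ (N + 1 + 1) =
        h ^ 2 * (C (L ^ (N + 1)) * p - (h ^ 2) ^ N - p * (h ^ 2) ^ (N + 1)) +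
          C (L ^ (N + 1)) * (1 + q) := by
      rw [← hc, pow_succ L (N + 1), C_mul]
      ring
    rw [h1]
    exact ((InM.sq h).mul ih).add ((InM.const (by positivity)).mul
      ((InM.of_sq IsSumSq.one).add hq))

theorem psi (L : ℝ) (hL : 0 < L) (n : ℕ) :
    InM g ((h ^ 2) ^ (n + 1) - C ((n + 1 : ℝ) * L ^ n) * h ^ 2 + C ((n : ℝ) * L ^ (n + 1))) := by
  induction n with
  | zero =>
    have h1 : (h ^ 2) ^ (0 + 1) - C (((0 : ℕ) + 1 : ℝ) * L ^ 0) * h ^ 2 +
        C (((0 : ℕ) : ℝ) * L ^ (0 + 1)) = 0 := by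
      simp
    rw [h1]
    exact InM.of_sq IsSumSq.zero
  | succ n ih =>
    have h1 : (h ^ 2) ^ (n + 1 + 1) - C (((n + 1 : ℕ) + 1 : ℝ) * L ^ (n + 1)) * h ^ 2 +
        C (((n + 1 : ℕ) : ℝ) * L ^ (n + 1 + 1)) =
        h ^ 2 * ((h ^ 2) ^ (n + 1) - C ((n + 1 : ℝ) * L ^ n) * h ^ 2 +
          C ((n : ℝ) * L ^ (n + 1))) + C ((n + 1 : ℝ) * L ^ n) * (h ^ 2 - C L) ^ 2 := by
      push_cast
      simp only [C_mul, C_add, C_pow, pow_succ, map_natCast, map_one]
      ring
    rw [h1]
    exact ((InM.sq h).mul ih).add ((InM.const (by positivity)).mul (InM.sq _))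

theorem InM.cancel {r : ℝ} (hr : 0 < r) {a : A} (h : InM g (C r * a)) : InM g a := by
  have h1 : a = C (1 / r) * (C r * a) := by
    rw [← mul_assoc, ← C_mul, one_div, inv_mul_cancel₀ hr.ne', C_1, one_mul]
  rw [h1]
  exact (InM.const (by positivity)).mul h

theorem bounded_mem (hst : Stable g) (z0 : Fin 2 → ℝ) (hz : 0 < eval z0 g) {p q : A}
    (hp : InM g p) (hq : InM g q) (L : ℝ) (hL : 0 < L)
    (hc : p * (C L - h ^ 2) = 1 + q) : InM g (C L - h ^ 2) := by
  have key : ∀ n : ℕ, InM g (C L - h ^ 2 + C (L ^ 2 / (n + 1)) * p) := by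
    intro n
    have h1 := (claim1 hp hq L hL hc (n + 1)).add ((hp.mul (InM.of_sq (s := (h ^ 2) ^ (n + 1 + 1))
      (by rw [← pow_mul, mul_comm, pow_mul]; exact isSumSq_sq _))).add (psi (g := g) (h := h) L hL n))
    have hn : (0 : ℝ) < n + 1 := by positivity
    refine InM.cancel (r := (n + 1) * L ^ n) (by positivity) ?_
    have h2 : C ((n + 1) * L ^ n) * (C L - h ^ 2 + C (L ^ 2 / (n + 1)) * p) =
        (C (L ^ (n + 1 + 1)) * p - (h ^ 2) ^ (n + 1) - p * (h ^ 2) ^ (n + 1 + 1) +
          (p * (h ^ 2) ^ (n + 1 + 1) + ((h ^ 2) ^ (n + 1) - C ((n + 1 : ℝ) * L ^ n) * h ^ 2 +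
            C ((n : ℝ) * L ^ (n + 1))))) + C (L ^ (n + 1)) := by
      have e1 : ((n + 1) * L ^ n * (L ^ 2 / (n + 1)) : ℝ) = L ^ (n + 1 + 1) := by
        field_simp
        ring
      have e2 : ((n + 1) * L ^ n * L : ℝ) = n * L ^ (n + 1) + L ^ (n + 1) := by ring
      have e3 : (C ((n + 1) * L ^ n) * C (L ^ 2 / (n + 1)) : A) = C (L ^ (n + 1 + 1)) := by
        rw [← C_mul, e1]
      have e4 : (C ((n + 1) * L ^ n) * C L : A) = C (n * L ^ (n + 1)) + C (L ^ (n + 1)) := by
        rw [← C_mul, e2, C_add]
      linear_combination e4 + p * e3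
    rw [h2]
    exact h1.add (InM.const (by positivity))
  refine Stable.closed hst z0 hz (max (C L - h ^ 2).totalDegree p.totalDegree) _ _ key
    (fun n => ?_) (fun z => ?_)
  · refine (totalDegree_add _ _).trans (max_le_max le_rfl ?_)
    refine (totalDegree_mul _ _).trans ?_
    rw [totalDegree_C, zero_add]
  · simp only [map_add, map_mul, eval_C]
    have h1 : Tendsto (fun n : ℕ => L ^ 2 / ((n : ℝ) + 1)) atTop (𝓝 0) := by
      have := (tendsto_one_div_add_atTop_nhds_zero_nat (𝕜 := ℝ)).const_mul (L ^ 2)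
      rw [mul_zero] at this
      refine this.congr fun n => ?_
      ring
    have h2 := (tendsto_const_nhds (x := eval z (C L - h ^ 2))).add (h1.mul_const (eval z p))
    rw [zero_mul, add_zero] at h2
    exact h2

/-- a univariate polynomial positive on `[-c, c]`, evaluated at `h`, lies in `M` -/
theorem univ_mem (c : ℝ) (hc : 0 < c) (hm : InM g (C (c ^ 2) - h ^ 2)) :
    ∀ (n : ℕ) (e : Polynomial ℝ), e.natDegree = n → (∀ x, -c ≤ x → x ≤ c → 0 < e.eval x) →
      InM g (Polynomial.aeval h e) := by
  have hC2 : (C (2 * c) : A) = 2 * C c := by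
    rw [C_mul]
    rfl
  have hm1 : InM g (C c - h) := by
    refine InM.cancel (r := 2 * c) (by positivity) ?_
    have h1 : C (2 * c) * (C c - h) = (C c - h) ^ 2 + (C (c ^ 2) - h ^ 2) := by
      rw [hC2, C_pow]
      ring
    rw [h1]
    exact (InM.sq _).add hm
  have hm2 : InM g (C c + h) := by
    refine InM.cancel (r := 2 * c) (by positivity) ?_
    have h1 : C (2 * c) * (C c + h) = (C c + h) ^ 2 + (C (c ^ 2) - h ^ 2) := by
      rw [hC2, C_pow]
      ring
    rw [h1]
    exact (InM.sq _).add hm
  intro n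
  induction n using Nat.strong_induction_on with
  | _ n ih =>
  intro e he hpos
  have hae : ∀ r : ℝ, Polynomial.aeval h (Polynomial.C r) = C r := fun r => Polynomial.aeval_C _ _
  by_cases hn : n = 0
  · rw [hn] at he
    obtain ⟨r, rfl⟩ := Polynomial.natDegree_eq_zero.1 he
    rw [hae]
    have h1 := hpos 0 (by linarith) hc.le
    rw [Polynomial.eval_C] at h1
    exact InM.const h1.le
  · have hdeg : 0 < (e.map (algebraMap ℝ ℂ)).degree := by
      rw [Polynomial.degree_map, ← Polynomial.natDegree_pos_iff_degree_pos]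
      omega
    have he0 : e ≠ 0 := by
      rintro rfl
      simp at he
      omega
    obtain ⟨z, hz⟩ := Complex.exists_root hdeg
    have hz' : Polynomial.aeval z e = 0 := by
      rw [Polynomial.IsRoot.def, Polynomial.eval_map] at hz
      exact hz
    by_cases him : z.im = 0
    · -- a real root
      have hr : e.eval z.re = 0 := by
        have h1 : (z : ℂ) = ((z.re : ℝ) : ℂ) := Complex.ext (by simp) (by simp [him])
        rw [h1] at hz'
        have h2 : Polynomial.aeval ((z.re : ℝ) : ℂ) e = ((e.eval z.re : ℝ) : ℂ) :=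
          Polynomial.aeval_algebraMap_apply_eq_algebraMap_eval (A := ℂ) z.re e
        rw [h2] at hz'
        exact_mod_cast hz'
      obtain ⟨e1, he1⟩ := Polynomial.dvd_iff_isRoot.2 hr
      have hd1 : e1.natDegree < n := by
        have h1 : e1 ≠ 0 := by rintro rfl; rw [mul_zero] at he1; exact he0 he1
        have h2 := congrArg Polynomial.natDegree he1
        rw [Polynomial.natDegree_mul (Polynomial.X_sub_C_ne_zero _) h1,
          Polynomial.natDegree_X_sub_C, he] at h2
        omega
      have hout : z.re < -c ∨ c < z.re := by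
        by_contra hcon
        push Not at hcon
        exact (hpos z.re hcon.1 hcon.2).ne' hr
      rcases hout with hout | hout
      · have h1 := ih _ hd1 e1 rfl (fun x hx hx' => by
          have h2 := hpos x hx hx'
          rw [he1, Polynomial.eval_mul, Polynomial.eval_sub, Polynomial.eval_X,
            Polynomial.eval_C] at h2
          exact (mul_pos_iff_of_pos_left (by linarith)).1 h2)
        rw [he1, map_mul, map_sub, Polynomial.aeval_X, hae]
        refine InM.mul ?_ h1
        have h3 : h - C z.re = (C c + h) + C (-c - z.re) := by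
          rw [C_sub, C_neg]
          ring
        rw [h3]
        exact hm2.add (InM.const (by linarith))
      · have h1 := ih _ (by rw [Polynomial.natDegree_neg]; exact hd1) (-e1) rfl (fun x hx hx' => by
          have h2 := hpos x hx hx'
          rw [he1, Polynomial.eval_mul, Polynomial.eval_sub, Polynomial.eval_X,
            Polynomial.eval_C] at h2
          rw [Polynomial.eval_neg]
          have h3 : 0 < (z.re - x) * (-e1.eval x) := by linarith
          exact (mul_pos_iff_of_pos_left (by linarith)).1 h3)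
        have h4 : Polynomial.aeval h e = (C z.re - h) * Polynomial.aeval h (-e1) := by
          rw [he1, map_mul, map_sub, Polynomial.aeval_X, hae, map_neg]
          ring
        rw [h4]
        refine InM.mul ?_ h1
        have h3 : C z.re - h = (C c - h) + C (z.re - c) := by
          rw [C_sub]
          ring
        rw [h3]
        exact hm1.add (InM.const (by linarith))
    · obtain ⟨e1, he1⟩ := Polynomial.quadratic_dvd_of_aeval_eq_zero_im_ne_zero e hz' him
      set Q : Polynomial ℝ := Polynomial.X ^ 2 - Polynomial.C (2 * z.re) * Polynomial.X +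
        Polynomial.C (‖z‖ ^ 2) with hQ
      have hnorm : ‖z‖ ^ 2 = z.re ^ 2 + z.im ^ 2 := by
        rw [Complex.sq_norm, Complex.normSq_apply]; ring
      have hQev : ∀ x, Q.eval x = (x - z.re) ^ 2 + z.im ^ 2 := by
        intro x
        rw [hQ, hnorm]
        simp
        ring
      have hQpos : ∀ x, 0 < Q.eval x := by
        intro x
        rw [hQev]
        have : 0 < z.im ^ 2 := by positivity
        positivity
      have hQdeg : Q.natDegree = 2 := by
        rw [hQ]
        compute_degree!
      have hd1 : e1.natDegree < n := by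
        have h1 : e1 ≠ 0 := by rintro rfl; rw [mul_zero] at he1; exact he0 he1
        have h2 := congrArg Polynomial.natDegree he1
        have h3 : Q ≠ 0 := by
          intro h3
          have := hQpos 0
          rw [h3] at this
          simp at this
        rw [Polynomial.natDegree_mul h3 h1, hQdeg, he] at h2
        omega
      have h1 := ih _ hd1 e1 rfl (fun x hx hx' => by
        have h2 := hpos x hx hx'
        rw [he1, Polynomial.eval_mul] at h2
        exact (mul_pos_iff_of_pos_left (hQpos x)).1 h2)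
      rw [he1, map_mul]
      refine InM.mul ?_ h1
      have h3 : Polynomial.aeval h Q = (h - C z.re) ^ 2 + C (z.im ^ 2) := by
        rw [hQ, hnorm]
        simp only [map_add, map_sub, map_mul, map_pow, Polynomial.aeval_X, hae]
        rw [show (C (2 : ℝ) : A) = 2 from rfl]
        ring
      rw [h3]
      exact (InM.sq _).add (InM.const (by positivity))

end Pool.Agent.Helper68.QM
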