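import Pool.Agent.Helper68.QM.Motzkin

set_option autoImplicit false

/-!
# MP_63c74b: a certificate of boundedness excludes stability
-/

open MvPolynomial Filter Topology

namespace Pool.Agent.Helper68.QM

variable {g h : A}

/-- the points `z0 + w / (n + 1)` -/
noncomputable def pt (z0 w : Fin 2 → ℝ) (n : ℕ) : Fin 2 → ℝ := fun i => z0 i + w i / ((n : ℝ) + 1)

theorem tendsto_pt (z0 w : Fin 2 → ℝ) : Tendsto (pt z0 w) atTop (𝓝 z0) := by
  rw [tendsto_pi_nhds]
  intro i
  have h1 := (tendsto_one_div_add_atTop_nhds_zero_nat (𝕜 := ℝ)).const_mul (w i)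
  have h2 := (tendsto_const_nhds (x := z0 i)).add h1
  rw [mul_zero, add_zero] at h2
  refine h2.congr fun n => ?_
  unfold pt
  ring

theorem tendsto_eval (P : A) (z0 w : Fin 2 → ℝ) :
    Tendsto (fun n => eval (pt z0 w n) P) atTop (𝓝 (eval z0 P)) :=
  ((MvPolynomial.continuous_eval P).tendsto z0).comp (tendsto_pt z0 w)

theorem tendsto_diff (P : A) (z0 w : Fin 2 → ℝ) :
    Tendsto (fun n : ℕ => ((n : ℝ) + 1) * (eval (pt z0 w n) P - eval z0 P)) atTop
      (𝓝 (eval z0 (pderiv 0 P) * w 0 + eval z0 (pderiv 1 P) * w 1)) := by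
  induction P using MvPolynomial.induction_on with
  | C c => simp
  | add p q hp hq =>
    have h1 := hp.add hq
    have h2 : eval z0 (pderiv 0 p) * w 0 + eval z0 (pderiv 1 p) * w 1 +
        (eval z0 (pderiv 0 q) * w 0 + eval z0 (pderiv 1 q) * w 1) =
        eval z0 (pderiv 0 (p + q)) * w 0 + eval z0 (pderiv 1 (p + q)) * w 1 := by
      rw [map_add, map_add, map_add, map_add]; ring
    rw [h2] at h1
    refine h1.congr fun n => ?_
    rw [map_add, map_add]
    ring
  | mul_X p i hp =>
    have hX : Tendsto (fun n : ℕ => eval (pt z0 w n) (X i : A)) atTop (𝓝 (z0 i)) := by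
      have := tendsto_eval (X i : A) z0 w
      rwa [eval_X] at this
    have h1 := (hp.mul hX).add (tendsto_const_nhds (x := eval z0 p * w i))
    have h2 : (eval z0 (pderiv 0 p) * w 0 + eval z0 (pderiv 1 p) * w 1) * z0 i + eval z0 p * w i =
        eval z0 (pderiv 0 (p * X i)) * w 0 + eval z0 (pderiv 1 (p * X i)) * w 1 := by
      rw [pderiv_mul, pderiv_mul]
      fin_cases i
      · simp [pderiv_X]
        ring
      · simp [pderiv_X]
        ring
    rw [h2] at h1
    refine h1.congr fun n => ?_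
    have hn : (0 : ℝ) < (n : ℝ) + 1 := by positivity
    rw [map_mul, map_mul, eval_X, eval_X]
    have h3 : pt z0 w n i = z0 i + w i / ((n : ℝ) + 1) := rfl
    rw [h3]
    field_simp
    ring

theorem const_of_pderiv (h0 : pderiv 0 h = 0) (h1 : pderiv 1 h = 0) : h = C (coeff 0 h) := by
  ext m
  rw [coeff_C]
  split_ifs with hm
  · rw [← hm]
  · have hi : ∃ i : Fin 2, m i ≠ 0 := by
      by_contra hcon
      push Not at hcon
      exact hm (Finsupp.ext fun i => (hcon i).symm)
    obtain ⟨i, hi⟩ := hi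
    have h2 : pderiv i h = 0 := by
      fin_cases i
      · exact h0
      · exact h1
    have h3 := coeff_pderiv (i := i) h (m - Finsupp.single i 1)
    have h4 : m - Finsupp.single i 1 + Finsupp.single i 1 = m := by
      ext j
      by_cases hj : j = i
      · subst hj
        simp
        omega
      · simp [Ne.symm hj]
    rw [h2, coeff_zero, h4] at h3
    have h5 : ((m - Finsupp.single i 1 : Fin 2 →₀ ℕ) i : ℝ) + 1 ≠ 0 := by positivity
    rcases mul_eq_zero.1 h3.symm with h6 | h6
    · exact h6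
    · exact absurd h6 h5

theorem exists_point (hg : ∃ z, 0 < eval z g) (hh : ∀ r, h ≠ C r) : ∃ z0, 0 < eval z0 g ∧
    (eval z0 (pderiv 0 h) ≠ 0 ∨ eval z0 (pderiv 1 h) ≠ 0) := by
  by_contra hcon
  push Not at hcon
  obtain ⟨z, hz⟩ := hg
  exact hh _ (const_of_pderiv (eq_zero_of_vanish z hz _ fun w hw => (hcon w hw).1)
    (eq_zero_of_vanish z hz _ fun w hw => (hcon w hw).2))

theorem deg_aeval (f : Fin 2 → A) (d : ℕ) (hf : ∀ i, (f i).totalDegree ≤ d) (P : A) :
    (aeval f P).totalDegree ≤ d * P.totalDegree := by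
  rw [P.as_sum, map_sum]
  refine (totalDegree_finsetSum _ _).trans (Finset.sup_le fun e he => ?_)
  rw [← P.as_sum, aeval_monomial, Finsupp.prod_fintype _ _ (fun _ => pow_zero _), Fin.prod_univ_two]
  refine (totalDegree_mul _ _).trans ?_
  have h1 : ((algebraMap ℝ A) (coeff e P)).totalDegree = 0 := totalDegree_C _
  rw [h1, zero_add]
  refine (totalDegree_mul _ _).trans ?_
  have h2 := (totalDegree_pow (f 0) (e 0)).trans (Nat.mul_le_mul_left _ (hf 0))
  have h3 := (totalDegree_pow (f 1) (e 1)).trans (Nat.mul_le_mul_left _ (hf 1))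
  have h4 := le_totalDegree he
  have h5 : (e.sum fun _ e => e) = ∑ i, e i := Finsupp.sum_fintype _ _ (fun _ => rfl)
  rw [Fin.sum_univ_two] at h5
  have h6 : d * (e 0 + e 1) ≤ d * P.totalDegree := Nat.mul_le_mul_left _ (by omega)
  nlinarith

theorem mot_aeval (u v : A) : aeval ![u, v] (mot (X 0) (X 1) : A) = mot u v := by
  simp only [mot, map_add, map_sub, map_mul, map_pow, map_one, map_ofNat, aeval_X]
  rfl

theorem InM.eval_nonneg {f : A} (hf : InM g f) (z : Fin 2 → ℝ) (hz : 0 ≤ eval z g) :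
    0 ≤ eval z f := by
  obtain ⟨s, t, hs, ht, rfl⟩ := hf
  rw [map_add, map_mul]
  exact add_nonneg (IsSumSq.eval_nonneg hs z) (mul_nonneg (IsSumSq.eval_nonneg ht z) hz)

/-- **Main theorem.** -/
theorem not_stable (g h p q : A) (c : ℝ) (hg : ∃ z, 0 < eval z g) (hh : ∀ r, h ≠ C r)
    (hp : InM g p) (hq : InM g q) (hc : p * (C (c ^ 2) - h ^ 2) = 1 + q) : ¬ Stable g := by
  intro hst
  obtain ⟨z0, hz0, hD⟩ := exists_point hg hh
  -- `c ≠ 0`
  have hc0 : 0 < |c| := by
    rw [abs_pos]
    rintro rfl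
    have h1 := congrArg (eval z0) hc
    have h2 := hp.eval_nonneg z0 hz0.le
    have h3 := hq.eval_nonneg z0 hz0.le
    simp only [map_mul, map_sub, map_add, map_pow, map_one, eval_C] at h1
    have h4 : 0 ≤ eval z0 p * (eval z0 h) ^ 2 := mul_nonneg h2 (sq_nonneg _)
    have h5 : (0 : ℝ) ^ 2 = 0 := by norm_num
    rw [h5] at h1
    linarith
  have hL : 0 < c ^ 2 := by rw [← sq_abs]; positivity
  have hm : InM g (C (|c| ^ 2) - h ^ 2) := by
    rw [sq_abs]
    exact bounded_mem hst z0 hz0 hp hq (c ^ 2) hL hc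
  set D0 := eval z0 (pderiv 0 h) with hD0
  set D1 := eval z0 (pderiv 1 h) with hD1
  set h0 := eval z0 h with hh0
  let l : A := C (-D1) * (X 0 - C (z0 0)) + C D0 * (X 1 - C (z0 1))
  have hmem : ∀ n : ℕ, InM g (mot (C ((n : ℝ) + 1) * (h - C h0)) (C ((n : ℝ) + 1) * l)) := fun n =>
    mot_mem hst z0 hz0 |c| h0 _ hc0 hm _
  obtain ⟨ell, hell⟩ := hst
  set d := max h.totalDegree 1 with hd
  set D := d * (mot (X 0) (X 1) : A).totalDegree with hDdef
  have hdeg : ∀ n : ℕ, (mot (C ((n : ℝ) + 1) * (h - C h0)) (C ((n : ℝ) + 1) * l)).totalDegree ≤ D := by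
    intro n
    rw [← mot_aeval]
    refine deg_aeval _ d (fun i => ?_) _
    have hl : l.totalDegree ≤ 1 := by
      have hx : ∀ (r s : ℝ) (i : Fin 2), (C r * (X i - C s) : A).totalDegree ≤ 1 := by
        intro r s i
        refine (totalDegree_mul _ _).trans ?_
        rw [totalDegree_C, zero_add]
        refine (totalDegree_sub_C_le _ _).trans ?_
        rw [totalDegree_X]
      exact (totalDegree_add _ _).trans (max_le (hx _ _ _) (hx _ _ _))
    fin_cases i
    · change (C ((n : ℝ) + 1) * (h - C h0)).totalDegree ≤ d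
      refine (totalDegree_mul _ _).trans ?_
      rw [totalDegree_C, zero_add]
      exact (totalDegree_sub_C_le _ _).trans (le_max_left _ _)
    · change (C ((n : ℝ) + 1) * l).totalDegree ≤ d
      refine (totalDegree_mul _ _).trans ?_
      rw [totalDegree_C, zero_add]
      exact hl.trans (le_max_right _ _)
  choose a b ha hb hab had hbd using fun n => hell D _ (hmem n) (hdeg n)
  have hg0 : g ≠ 0 := by rintro rfl; simp at hz0
  -- rescaling
  let sb : ℕ → A → A := fun n => aeval (fun i => C (z0 i) + C (1 / ((n : ℝ) + 1)) * X i)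
  have hsb : ∀ n (P : A) w, eval w (sb n P) = eval (pt z0 w n) P := by
    intro n P w
    change eval w (aeval _ P) = _
    induction P using MvPolynomial.induction_on with
    | C r => rw [aeval_C, eval_C]; exact eval_C _
    | add p q hp hq => rw [map_add, map_add, map_add, hp, hq]
    | mul_X p i hp =>
      rw [map_mul, map_mul, map_mul, hp, aeval_X, eval_X]
      congr 1
      rw [map_add, map_mul, eval_C, eval_C, eval_X]
      unfold pt
      ring
  have hsbd : ∀ n (P : A), (sb n P).totalDegree ≤ P.totalDegree := by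
    intro n P
    have h1 := deg_aeval (fun i => C (z0 i) + C (1 / ((n : ℝ) + 1)) * X i) 1 (fun i => by
      refine (totalDegree_add _ _).trans (max_le (by rw [totalDegree_C]; omega) ?_)
      refine (totalDegree_mul _ _).trans ?_
      rw [totalDegree_C, totalDegree_X]) P
    rwa [one_mul] at h1
  obtain ⟨S, hS, -⟩ := exists_grid z0 hz0 (ell D)
  obtain ⟨s, t, hs, ht, hst⟩ := limit (ell D) (fun n => sb n (a n)) (fun n => sb n (b n))
    (fun n => IsSumSq.aeval (ha n) _) (fun n => IsSumSq.aeval (hb n) _)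
    (fun n => ((hsbd n _).trans (had n)).trans (by omega))
    (fun n => ((hsbd n _).trans ((deg_right hg0).trans (hbd n))).trans (by omega))
    (fun n w => eval (pt z0 w n) g)
    (fun n w => eval (pt z0 w n) (mot (C ((n : ℝ) + 1) * (h - C h0)) (C ((n : ℝ) + 1) * l)))
    (fun _ => eval z0 g)
    (fun w => mot (D0 * w 0 + D1 * w 1) (-D1 * w 0 + D0 * w 1))
    (fun w => tendsto_eval g z0 w)
    (fun w => by
      have h1 : Tendsto (fun n : ℕ => ((n : ℝ) + 1) * (eval (pt z0 w n) h - h0)) atTop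
          (𝓝 (D0 * w 0 + D1 * w 1)) := tendsto_diff h z0 w
      have h2 : Tendsto (fun n : ℕ => mot (((n : ℝ) + 1) * (eval (pt z0 w n) h - h0))
          (-D1 * w 0 + D0 * w 1)) atTop
          (𝓝 (mot (D0 * w 0 + D1 * w 1) (-D1 * w 0 + D0 * w 1))) := by
        have hcont : Continuous fun x : ℝ => mot x (-D1 * w 0 + D0 * w 1) := by
          unfold mot
          fun_prop
        exact (hcont.tendsto _).comp h1
      refine h2.congr fun n => ?_
      have hn : (0 : ℝ) < (n : ℝ) + 1 := by positivity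
      have h3 : eval (pt z0 w n) l = (-D1 * w 0 + D0 * w 1) / ((n : ℝ) + 1) := by
        simp only [l, map_add, map_mul, map_sub, eval_C, eval_X, pt]
        ring
      simp only [mot, map_add, map_sub, map_mul, map_pow, map_one, map_ofNat, eval_C, h3]
      have h4 : ((n : ℝ) + 1) * ((-D1 * w 0 + D0 * w 1) / ((n : ℝ) + 1)) = -D1 * w 0 + D0 * w 1 := by
        field_simp
      rw [h4])
    (fun n w => by
      rw [hsb, hsb, ← map_mul, ← map_add, ← hab n]) S hS (fun _ _ => hz0)
  refine mot_not_sos D0 D1 hD (s + C (eval z0 g) * t) (hs.add ((isSumSq_C hz0.le).mul ht)) ?_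
  intro w
  rw [map_add, map_mul, eval_C, mul_comm (eval z0 g)]
  exact hst w

/-- polynomials growing at most like `‖z‖ ^ m` on the set `g ≥ 0` -/
def growthSpace (g : A) (m : ℕ) : Submodule ℝ A where
  carrier := {f | ∃ K : ℝ, ∀ z : Fin 2 → ℝ, 0 ≤ eval z g → |eval z f| ≤ K * (1 + ‖z‖) ^ m}
  add_mem' := by
    rintro a b ⟨K, hK⟩ ⟨K', hK'⟩
    refine ⟨K + K', fun z hz => ?_⟩
    rw [map_add]
    refine (abs_add_le _ _).trans ?_
    have h1 := hK z hz
    have h2 := hK' z hz
    linarith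
  zero_mem' := ⟨0, fun z _ => by simp⟩
  smul_mem' := by
    rintro c a ⟨K, hK⟩
    refine ⟨|c| * K, fun z hz => ?_⟩
    rw [smul_eval, abs_mul, mul_assoc]
    exact mul_le_mul_of_nonneg_left (hK z hz) (abs_nonneg c)

theorem eval_bound (f : A) (d : ℕ) (hd : f.totalDegree ≤ d) :
    ∃ K : ℝ, ∀ z : Fin 2 → ℝ, |eval z f| ≤ K * (1 + ‖z‖) ^ d := by
  refine ⟨∑ e ∈ f.support, |coeff e f|, fun z => ?_⟩
  conv_lhs => rw [f.as_sum, map_sum]
  refine (Finset.abs_sum_le_sum_abs _ _).trans ?_
  rw [Finset.sum_mul]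
  refine Finset.sum_le_sum fun e he => ?_
  rw [eval_monomial, abs_mul]
  refine mul_le_mul_of_nonneg_left ?_ (abs_nonneg _)
  rw [Finsupp.prod_fintype _ _ (fun _ => pow_zero _), Fin.prod_univ_two, abs_mul, abs_pow, abs_pow]
  have h1 : ∀ i : Fin 2, |z i| ≤ 1 + ‖z‖ := fun i => by
    have := norm_le_pi_norm z i
    rw [Real.norm_eq_abs] at this
    linarith
  have h2 : (1 : ℝ) ≤ 1 + ‖z‖ := by have := norm_nonneg z; linarith
  have h4 := le_totalDegree he
  have h5 : (e.sum fun _ e => e) = ∑ i, e i := Finsupp.sum_fintype _ _ (fun _ => rfl)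
  rw [Fin.sum_univ_two] at h5
  calc |z 0| ^ e 0 * |z 1| ^ e 1 ≤ (1 + ‖z‖) ^ e 0 * (1 + ‖z‖) ^ e 1 :=
        mul_le_mul (pow_le_pow_left₀ (abs_nonneg _) (h1 0) _)
          (pow_le_pow_left₀ (abs_nonneg _) (h1 1) _) (by positivity) (by positivity)
    _ = (1 + ‖z‖) ^ (e 0 + e 1) := (pow_add _ _ _).symm
    _ ≤ (1 + ‖z‖) ^ d := pow_le_pow_right₀ h2 (by omega)

/-- **Growth criterion.** -/
theorem stable_of_growth (g : A) (hfin : ∀ m, Module.Finite ℝ (growthSpace g m)) : Stable g := by
  -- a bound for the degrees in a finite dimensional space of polynomials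
  have hdeg : ∀ m, ∃ D : ℕ, ∀ f ∈ growthSpace g m, f.totalDegree ≤ D := by
    intro m
    have h1 := hfin m
    obtain ⟨S, hS⟩ := (Submodule.fg_top (growthSpace g m)).1 h1.fg_top
    refine ⟨S.sup totalDegree, fun f hf => ?_⟩
    rw [← hS] at hf
    induction hf using Submodule.span_induction with
    | mem x hx => exact Finset.le_sup (f := totalDegree) hx
    | zero => simp
    | add x y _ _ hx hy => exact (totalDegree_add _ _).trans (max_le hx hy)
    | smul a x _ hx => exact (totalDegree_smul_le _ _).trans hx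
  choose l hl using hdeg
  refine ⟨l, fun d f hf hfd => ?_⟩
  obtain ⟨s, t, hs, ht, hst⟩ := hf
  obtain ⟨K, hK⟩ := eval_bound f d hfd
  refine ⟨s, t, hs, ht, hst, hl d s ⟨K, fun z hz => ?_⟩, hl d (t * g) ⟨K, fun z hz => ?_⟩⟩
  · have h1 := hK z
    have h2 := IsSumSq.eval_nonneg hs z
    have h3 := mul_nonneg (IsSumSq.eval_nonneg ht z) hz
    rw [abs_of_nonneg h2]
    refine le_trans ?_ ((le_abs_self _).trans h1)
    rw [hst, map_add, map_mul]
    linarith
  · have h1 := hK z
    have h2 := IsSumSq.eval_nonneg hs z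
    have h3 := mul_nonneg (IsSumSq.eval_nonneg ht z) hz
    rw [map_mul, abs_of_nonneg h3]
    refine le_trans ?_ ((le_abs_self _).trans h1)
    rw [hst, map_add, map_mul]
    linarith

end Pool.Agent.Helper68.QM
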