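import Pool.Agent.Helper68.QM.Closed

set_option autoImplicit false

/-!
# MP_63c74b: Motzkin's polynomial
-/

open MvPolynomial Filter Topology

namespace Pool.Agent.Helper68.QM

variable {g h : A}

/-- Motzkin's polynomial -/
def mot {R : Type} [CommRing R] (u v : R) : R := 1 - 3 * u ^ 2 * v ^ 2 + u ^ 4 * v ^ 2 + u ^ 2 * v ^ 4

theorem Stable.closed_eps (hst : Stable g) (z0 : Fin 2 → ℝ) (hz : 0 < eval z0 g) (F P : A)
    (hF : ∀ ε : ℝ, 0 < ε → InM g (F + C ε * P)) : InM g F := by
  refine Stable.closed hst z0 hz (max F.totalDegree P.totalDegree)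
    (fun n => F + C (1 / ((n : ℝ) + 1)) * P) F (fun n => hF _ (by positivity))
    (fun n => ?_) (fun z => ?_)
  · refine (totalDegree_add _ _).trans (max_le_max le_rfl ?_)
    refine (totalDegree_mul _ _).trans ?_
    rw [totalDegree_C, zero_add]
  · simp only [map_add, map_mul, eval_C]
    have h1 := tendsto_one_div_add_atTop_nhds_zero_nat (𝕜 := ℝ)
    have h2 := (tendsto_const_nhds (x := eval z F)).add (h1.mul_const (eval z P))
    rw [zero_mul, add_zero] at h2
    exact h2

theorem motE_mem (c h0 N : ℝ) (hc : 0 < c) (hm : InM g (C (c ^ 2) - h ^ 2)) (v : A) (ε : ℝ)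
    (hε : 0 < ε) :
    InM g (mot (C N * (h - C h0)) v + C ε * (1 + v ^ 2 + v ^ 4)) := by
  obtain ⟨s, hs⟩ := exists_polynomial_near_of_continuousOn (-(|N| * (c + |h0|)))
    (|N| * (c + |h0|)) (fun x => |x|) continuous_abs.continuousOn (ε / 2) (by positivity)
  set Y : Polynomial ℝ := Polynomial.C N * (Polynomial.X - Polynomial.C h0) with hY
  have hYev : ∀ x, Y.eval x = N * (x - h0) := by intro x; rw [hY]; simp
  have hYr : ∀ x, -c ≤ x → x ≤ c → |s.eval (Y.eval x) - abs (Y.eval x)| < ε / 2 := by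
    intro x hx hx'
    apply hs
    rw [Set.mem_Icc, ← abs_le, hYev, abs_mul]
    apply mul_le_mul_of_nonneg_left _ (abs_nonneg N)
    have h1 : |x| ≤ c := abs_le.2 ⟨hx, hx'⟩
    have h2 := abs_sub x h0
    linarith
  have hE1 := univ_mem c hc hm _ (Polynomial.C (1 + ε) * (Y ^ 2 + Polynomial.C ε) - s.comp Y ^ 2)
    rfl (fun x hx hx' => by
      simp only [Polynomial.eval_sub, Polynomial.eval_mul, Polynomial.eval_add,
        Polynomial.eval_pow, Polynomial.eval_C, Polynomial.eval_comp]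
      have h1 := abs_lt.1 (hYr x hx hx')
      have h2 := abs_nonneg (Y.eval x)
      have h3 : (Y.eval x) ^ 2 = |Y.eval x| ^ 2 := (sq_abs _).symm
      rw [h3]
      generalize |Y.eval x| = t at *
      generalize s.eval (Y.eval x) = σ at *
      have h4 : σ ^ 2 ≤ (t + ε / 2) ^ 2 := by
        apply sq_le_sq'
        · linarith
        · linarith
      nlinarith [sq_nonneg (t - 1 / 2), sq_nonneg ε, mul_pos hε hε,
        mul_nonneg hε.le (sq_nonneg (t - 1 / 2))])
  have hE2 := univ_mem c hc hm _ (Y ^ 4 - 3 * Y ^ 2 + Polynomial.C ε + 2 * s.comp Y)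
    rfl (fun x hx hx' => by
      simp only [Polynomial.eval_sub, Polynomial.eval_mul, Polynomial.eval_add,
        Polynomial.eval_pow, Polynomial.eval_C, Polynomial.eval_comp, Polynomial.eval_ofNat]
      have h1 := abs_lt.1 (hYr x hx hx')
      have h2 := abs_nonneg (Y.eval x)
      have h3 : (Y.eval x) ^ 2 = |Y.eval x| ^ 2 := (sq_abs _).symm
      have h3' : (Y.eval x) ^ 4 = |Y.eval x| ^ 4 := by
        rw [show (4 : ℕ) = 2 * 2 from rfl, pow_mul, pow_mul, h3]
      rw [h3, h3']
      generalize |Y.eval x| = t at *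
      generalize s.eval (Y.eval x) = σ at *
      have h4 : 0 ≤ t * (t - 1) ^ 2 * (t + 2) := by positivity
      nlinarith)
  have hae : ∀ r : ℝ, Polynomial.aeval h (Polynomial.C r) = C r := fun r => Polynomial.aeval_C _ _
  have hu : Polynomial.aeval h Y = C N * (h - C h0) := by
    rw [hY, map_mul, map_sub, Polynomial.aeval_X, hae, hae]
  have hcomp : Polynomial.aeval h (s.comp Y) = Polynomial.aeval (C N * (h - C h0)) s := by
    rw [Polynomial.aeval_comp, hu]
  simp only [map_sub, map_add, map_mul, map_pow, hu, hcomp, hae, map_ofNat] at hE1 hE2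
  refine InM.cancel (r := 1 + ε) (by positivity) ?_
  have h1 : C (1 + ε) * (mot (C N * (h - C h0)) v + C ε * (1 + v ^ 2 + v ^ 4)) =
      (C (1 + ε) - Polynomial.aeval (C N * (h - C h0)) s * v ^ 2) ^ 2 +
      ((C 1 + C ε) * ((C N * (h - C h0)) ^ 2 + C ε) -
        Polynomial.aeval (C N * (h - C h0)) s ^ 2) * (v ^ 2) ^ 2 +
      C (1 + ε) * (((C N * (h - C h0)) ^ 4 - 3 * (C N * (h - C h0)) ^ 2 + C ε +
        2 * Polynomial.aeval (C N * (h - C h0)) s) * v ^ 2) := by
    unfold mot
    rw [C_add, C_1]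
    ring
  rw [h1]
  exact ((InM.sq _).add (hE1.mul (InM.sq _))).add ((InM.const (by positivity)).mul
    (hE2.mul (InM.sq _)))

theorem mot_mem (hst : Stable g) (z0 : Fin 2 → ℝ) (hz : 0 < eval z0 g) (c h0 N : ℝ) (hc : 0 < c)
    (hm : InM g (C (c ^ 2) - h ^ 2)) (v : A) : InM g (mot (C N * (h - C h0)) v) :=
  Stable.closed_eps hst z0 hz _ _ fun ε hε => motE_mem c h0 N hc hm v ε hε

/-! ### Motzkin's polynomial is not a sum of squares -/

theorem growth (q r : Polynomial ℝ) (hqr : ∀ x, (r.eval x) ^ 2 ≤ q.eval x) :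
    2 * r.natDegree ≤ q.natDegree := by
  by_contra hcon
  push Not at hcon
  have hr0 : r ≠ 0 := by rintro rfl; simp at hcon
  have hr2 : r ^ 2 ≠ 0 := pow_ne_zero 2 hr0
  have hdeg : q.degree < (r ^ 2).degree := by
    apply Polynomial.degree_lt_degree
    rw [Polynomial.natDegree_pow]
    exact hcon
  have h1 := Polynomial.div_tendsto_atTop_zero_of_degree_lt q (r ^ 2) hdeg
  have h2 := h1.eventually (gt_mem_nhds (show (0 : ℝ) < 1 by norm_num))
  have h3 := Polynomial.eventually_atTop_not_isRoot r hr0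
  obtain ⟨x, h4, h5⟩ := (h2.and h3).exists
  have h6 : 0 < r.eval x ^ 2 := by
    have : r.eval x ≠ 0 := h5
    positivity
  rw [Polynomial.eval_pow, div_lt_one h6] at h4
  linarith [hqr x]

/-- restriction to the line `(a x, b x)` -/
noncomputable def TT (a b : ℝ) (P : A) : Polynomial ℝ :=
  aeval ![Polynomial.C a * Polynomial.X, Polynomial.C b * Polynomial.X] P

theorem TT_eval (a b : ℝ) (P : A) (x : ℝ) : (TT a b P).eval x = eval ![a * x, b * x] P := by
  unfold TT
  induction P using MvPolynomial.induction_on with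
  | C c =>
    rw [aeval_C, eval_C]
    exact Polynomial.eval_C
  | add p q hp hq => rw [map_add, Polynomial.eval_add, map_add, hp, hq]
  | mul_X p i hp =>
    rw [map_mul, Polynomial.eval_mul, map_mul, hp, aeval_X, eval_X]
    congr 1
    fin_cases i <;> simp

theorem TT_coeff (a b : ℝ) (P : A) (n : ℕ) : (TT a b P).coeff n =
    ∑ e ∈ P.support, if e 0 + e 1 = n then coeff e P * (a ^ e 0 * b ^ e 1) else 0 := by
  unfold TT
  conv_lhs => rw [P.as_sum, map_sum, Polynomial.finsetSum_coeff]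
  refine Finset.sum_congr rfl fun e _ => ?_
  rw [aeval_monomial, Finsupp.prod_fintype _ _ (fun _ => pow_zero _), Fin.prod_univ_two]
  have h1 : (algebraMap ℝ (Polynomial ℝ)) (coeff e P) *
      ((![Polynomial.C a * Polynomial.X, Polynomial.C b * Polynomial.X] : Fin 2 → Polynomial ℝ) 0 ^ e 0 *
      (![Polynomial.C a * Polynomial.X, Polynomial.C b * Polynomial.X] : Fin 2 → Polynomial ℝ) 1 ^ e 1) =
      Polynomial.C (coeff e P * (a ^ e 0 * b ^ e 1)) * Polynomial.X ^ (e 0 + e 1) := by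
    change Polynomial.C (coeff e P) * ((Polynomial.C a * Polynomial.X) ^ e 0 *
      (Polynomial.C b * Polynomial.X) ^ e 1) = _
    simp only [map_mul, map_pow]
    ring
  rw [h1, Polynomial.coeff_C_mul, Polynomial.coeff_X_pow]
  by_cases h : e 0 + e 1 = n
  · rw [if_pos h.symm, if_pos h, mul_one]
  · rw [if_neg (fun h' => h h'.symm), if_neg h, mul_zero]

theorem mot_point (P : A) (hP : ∀ u v : ℝ, (eval ![u, v] P) ^ 2 ≤ mot u v) :
    eval ![0, 0] P = 0 := by
  -- on the axes
  have hax1 : (TT 1 0 P).coeff 2 = 0 := by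
    apply Polynomial.coeff_eq_zero_of_natDegree_lt
    have := growth 1 (TT 1 0 P) (fun x => by
      rw [TT_eval, Polynomial.eval_one]
      refine (hP _ _).trans ?_
      simp [mot])
    rw [Polynomial.natDegree_one] at this
    omega
  have hax2 : (TT 0 1 P).coeff 2 = 0 := by
    apply Polynomial.coeff_eq_zero_of_natDegree_lt
    have := growth 1 (TT 0 1 P) (fun x => by
      rw [TT_eval, Polynomial.eval_one]
      refine (hP _ _).trans ?_
      simp [mot])
    rw [Polynomial.natDegree_one] at this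
    omega
  -- on the diagonals
  have hdiag : ∀ a b : ℝ, a ^ 2 = 1 → b ^ 2 = 1 → (TT a b P).natDegree ≤ 3 := by
    intro a b ha hb
    have := growth (1 - 3 * Polynomial.X ^ 4 + 2 * Polynomial.X ^ 6) (TT a b P) (fun x => by
      rw [TT_eval]
      refine (hP _ _).trans (le_of_eq ?_)
      have ha4 : a ^ 4 = 1 := by rw [show (4 : ℕ) = 2 * 2 from rfl, pow_mul, ha, one_pow]
      have hb4 : b ^ 4 = 1 := by rw [show (4 : ℕ) = 2 * 2 from rfl, pow_mul, hb, one_pow]
      simp only [mot, mul_pow, ha, hb, ha4, hb4, Polynomial.eval_sub, Polynomial.eval_add,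
        Polynomial.eval_mul, Polynomial.eval_pow, Polynomial.eval_X, Polynomial.eval_one,
        Polynomial.eval_ofNat]
      ring)
    have h6 : (1 - 3 * Polynomial.X ^ 4 + 2 * Polynomial.X ^ 6 : Polynomial ℝ).natDegree ≤ 6 := by
      compute_degree
    omega
  have hone : ∀ a b : ℝ, a ^ 2 = 1 → b ^ 2 = 1 → (TT a b P).eval 1 = 0 := by
    intro a b ha hb
    rw [TT_eval, mul_one, mul_one]
    have h1 := hP a b
    have ha4 : a ^ 4 = 1 := by rw [show (4 : ℕ) = 2 * 2 from rfl, pow_mul, ha, one_pow]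
    have hb4 : b ^ 4 = 1 := by rw [show (4 : ℕ) = 2 * 2 from rfl, pow_mul, hb, one_pow]
    rw [mot, ha, hb, ha4, hb4] at h1
    have h2 : (eval ![a, b] P) ^ 2 ≤ 0 := by linarith
    exact pow_eq_zero_iff two_ne_zero |>.1 (le_antisymm h2 (sq_nonneg _))
  set φ := TT 1 1 P + TT 1 (-1) P + TT (-1) 1 P + TT (-1) (-1) P with hφ
  have hc : ∀ n, φ.coeff n = ∑ e ∈ P.support, if e 0 + e 1 = n then
      coeff e P * (1 + (-1) ^ e 1 + (-1) ^ e 0 + (-1) ^ e 0 * (-1) ^ e 1) else 0 := by
    intro n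
    rw [hφ, Polynomial.coeff_add, Polynomial.coeff_add, Polynomial.coeff_add, TT_coeff, TT_coeff,
      TT_coeff, TT_coeff, ← Finset.sum_add_distrib, ← Finset.sum_add_distrib,
      ← Finset.sum_add_distrib]
    refine Finset.sum_congr rfl fun e _ => ?_
    split_ifs
    · simp only [one_pow]; ring
    · simp
  have h1 : φ.coeff 1 = 0 := by
    rw [hc]
    refine Finset.sum_eq_zero fun e _ => ?_
    split_ifs with h
    · have : (e 0 = 0 ∧ e 1 = 1) ∨ (e 0 = 1 ∧ e 1 = 0) := by omega
      rcases this with ⟨h1, h2⟩ | ⟨h1, h2⟩ <;> rw [h1, h2] <;> norm_num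
    · rfl
  have h3 : φ.coeff 3 = 0 := by
    rw [hc]
    refine Finset.sum_eq_zero fun e _ => ?_
    split_ifs with h
    · have : (e 0 = 0 ∧ e 1 = 3) ∨ (e 0 = 1 ∧ e 1 = 2) ∨ (e 0 = 2 ∧ e 1 = 1) ∨
        (e 0 = 3 ∧ e 1 = 0) := by omega
      rcases this with ⟨h1, h2⟩ | ⟨h1, h2⟩ | ⟨h1, h2⟩ | ⟨h1, h2⟩ <;> rw [h1, h2] <;> norm_num
    · rfl
  have h2 : φ.coeff 2 = 0 := by
    have h4 : φ.coeff 2 = 4 * ((TT 1 0 P).coeff 2 + (TT 0 1 P).coeff 2) := by
      rw [hc, TT_coeff, TT_coeff, ← Finset.sum_add_distrib, Finset.mul_sum]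
      refine Finset.sum_congr rfl fun e _ => ?_
      split_ifs with h
      · have : (e 0 = 0 ∧ e 1 = 2) ∨ (e 0 = 1 ∧ e 1 = 1) ∨ (e 0 = 2 ∧ e 1 = 0) := by omega
        rcases this with ⟨h1, h2⟩ | ⟨h1, h2⟩ | ⟨h1, h2⟩ <;> rw [h1, h2] <;> norm_num <;> ring
      · ring
    rw [h4, hax1, hax2]
    ring
  have hdeg : φ.natDegree ≤ 3 := by
    refine (Polynomial.natDegree_add_le _ _).trans (max_le ?_ (hdiag _ _ (by norm_num) (by norm_num)))
    refine (Polynomial.natDegree_add_le _ _).trans (max_le ?_ (hdiag _ _ (by norm_num) (by norm_num)))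
    refine (Polynomial.natDegree_add_le _ _).trans (max_le ?_ (hdiag _ _ (by norm_num) (by norm_num)))
    exact hdiag _ _ (by norm_num) (by norm_num)
  have hconst : φ = Polynomial.C (φ.coeff 0) := by
    ext n
    rcases Nat.lt_or_ge n 4 with hn | hn
    · interval_cases n
      · simp
      · rw [h1, Polynomial.coeff_C]; simp
      · rw [h2, Polynomial.coeff_C]; simp
      · rw [h3, Polynomial.coeff_C]; simp
    · rw [Polynomial.coeff_eq_zero_of_natDegree_lt (by omega), Polynomial.coeff_C, if_neg (by omega)]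
  have he1 : φ.eval 1 = 0 := by
    rw [hφ, Polynomial.eval_add, Polynomial.eval_add, Polynomial.eval_add,
      hone _ _ (by norm_num) (by norm_num), hone _ _ (by norm_num) (by norm_num),
      hone _ _ (by norm_num) (by norm_num), hone _ _ (by norm_num) (by norm_num)]
    ring
  have h0 : φ.coeff 0 = 0 := by
    rw [hconst, Polynomial.eval_C] at he1
    exact he1
  have he0 : φ.eval 0 = 0 := by
    rw [hconst, h0]
    simp
  rw [hφ, Polynomial.eval_add, Polynomial.eval_add, Polynomial.eval_add, TT_eval, TT_eval, TT_eval,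
    TT_eval] at he0
  simp only [mul_zero] at he0
  linarith

/-- a linear change of coordinates of Motzkin's polynomial is not a sum of squares -/
theorem mot_not_sos (D0 D1 : ℝ) (hD : D0 ≠ 0 ∨ D1 ≠ 0) (σ : A) (hσ : IsSumSq σ)
    (h : ∀ w : Fin 2 → ℝ, mot (D0 * w 0 + D1 * w 1) (-D1 * w 0 + D0 * w 1) = eval w σ) : False := by
  obtain ⟨n, a, rfl⟩ := IsSumSq.exists_list hσ
  have hn : 0 < D0 ^ 2 + D1 ^ 2 := by
    rcases hD with h | h
    · have := sq_nonneg D1
      positivity
    · have := sq_nonneg D0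
      positivity
  set N := D0 ^ 2 + D1 ^ 2 with hN
  let f : Fin 2 → A := ![C (D0 / N) * X 0 - C (D1 / N) * X 1, C (D1 / N) * X 0 + C (D0 / N) * X 1]
  have hev : ∀ (u v : ℝ) (P : A), eval ![u, v] (aeval f P) =
      eval ![(D0 * u - D1 * v) / N, (D1 * u + D0 * v) / N] P := by
    intro u v P
    induction P using MvPolynomial.induction_on with
    | C c => rw [aeval_C, eval_C]; exact eval_C _
    | add p q hp hq => rw [map_add, map_add, map_add, hp, hq]
    | mul_X p i hp =>
      rw [map_mul, map_mul, map_mul, hp, aeval_X, eval_X]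
      congr 1
      fin_cases i
      · simp [f]
        ring
      · simp [f]
        ring
  have hw : ∀ u v : ℝ, mot u v = ∑ i, (eval ![u, v] (aeval f (a i))) ^ 2 := by
    intro u v
    have h1 := h ![(D0 * u - D1 * v) / N, (D1 * u + D0 * v) / N]
    have e1 : D0 * (![(D0 * u - D1 * v) / N, (D1 * u + D0 * v) / N] : Fin 2 → ℝ) 0 +
        D1 * (![(D0 * u - D1 * v) / N, (D1 * u + D0 * v) / N] : Fin 2 → ℝ) 1 = u := by
      simp
      field_simp
      rw [hN]
      ring
    have e2 : -D1 * (![(D0 * u - D1 * v) / N, (D1 * u + D0 * v) / N] : Fin 2 → ℝ) 0 +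
        D0 * (![(D0 * u - D1 * v) / N, (D1 * u + D0 * v) / N] : Fin 2 → ℝ) 1 = v := by
      simp
      field_simp
      rw [hN]
      ring
    rw [e1, e2, map_sum] at h1
    rw [h1]
    refine Finset.sum_congr rfl fun i _ => ?_
    rw [hev, map_pow]
  have hz : ∀ i, eval ![0, 0] (aeval f (a i)) = 0 := fun i => mot_point _ (fun u v => by
    rw [hw u v]
    exact Finset.single_le_sum (f := fun i => (eval ![u, v] (aeval f (a i))) ^ 2)
      (fun i _ => sq_nonneg _) (Finset.mem_univ i))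
  have h1 := hw 0 0
  simp only [hz] at h1
  simp [mot] at h1

end Pool.Agent.Helper68.QM
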